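import Pool.Agent.Lib.MP_6bc78b_nt.MS.QZ.Iface

/-! Project MS, Part QZ: norms with the mollifier. -/

set_option autoImplicit false

open Complex Filter Topology MeasureTheory ArithmeticFunction

namespace Pool.Agent.Lib.MP_6bc78b_nt.MS.QZ.H79

open Pool.Agent.Lib.MP_6bc78b_nt.MS Pool.Agent.Lib.MP_6bc78b_nt.MS.P1
open Pool.Agent.Lib.MP_6bc78b_nt.MS.QZ

theorem hh_cont (Y α : ℝ) (hY : 0 ≤ Y) : Continuous (hh Y α) := by
  unfold hh
  refine Continuous.mul ?_ ?_
  · refine Continuous.rpow_const (by fun_prop) (fun τ => Or.inl ?_)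
    have : 0 ≤ min |τ| 1 * Y := mul_nonneg (le_min (abs_nonneg _) zero_le_one) hY
    linarith
  · refine Continuous.rpow_const (by fun_prop) (fun τ => Or.inl ?_)
    have := abs_nonneg τ
    linarith

theorem one_le_hh (Y α τ : ℝ) (hY : 0 ≤ Y) (hα : 0 ≤ α) : 1 ≤ hh Y α τ := by
  unfold hh
  have h1 : 1 ≤ (1 + min |τ| 1 * Y) ^ α := by
    apply Real.one_le_rpow _ hα
    have : 0 ≤ min |τ| 1 * Y := mul_nonneg (le_min (abs_nonneg _) zero_le_one) hY
    linarith
  have h2 : 1 ≤ (1 + |τ|) ^ (1 / 4 : ℝ) := by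
    apply Real.one_le_rpow _ (by norm_num)
    have := abs_nonneg τ
    linarith
  nlinarith

theorem rs_nonneg (S : Finset ℕ) : 0 ≤ rs S :=
  Finset.sum_nonneg (fun p _ => by positivity)

/-- The norm for one frequency, in the final form. -/
theorem freq (hexp : ExpStatement) (hfzn : FznStatement) (hbiu : BiuStatement)
    (hbls : BlsStatement) (hscl : SclStatement) (hdec : DecStatement) :
    ∃ C T0 : ℝ, 0 < C ∧ 3 < T0 ∧ ∀ T : ℝ, T0 ≤ T → ∀ (k : ℝ) (j : ℕ), 0 < k → k ≤ 1 →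
      j ≤ JJ T → ∃ Y : ℝ, 1 ≤ Y ∧ Y ≤ Real.log T ∧ ∀ τ : ℝ,
        NN (muz (prs 1 T) (((1 / Real.log T : ℝ) : ℂ) + τ * I) *
          toC (gA (1 - k) T j (rj T j))) ≤
        ENNReal.ofReal (C * Real.log T ^ (k ^ 2) * wj T j * RJ T j ^ (2 * rj T j) *
          hh Y (1 - k) τ ^ 2) := by
  obtain ⟨CE, hCE, hexp⟩ := hexp
  obtain ⟨CF, TF, hCF, hTF, hfzn⟩ := hfzn
  obtain ⟨TB, hTB, hbiu⟩ := hbiu
  obtain ⟨CB, TS, hCB, hTS, hbls⟩ := hbls
  obtain ⟨TC, hTC, hscl⟩ := hscl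
  obtain ⟨CD, TD, hCD, hTD, hdec⟩ := hdec CB hCB
  refine ⟨CF * (CE + 1) * Real.exp 4 * CD, max TF (max TB (max TS (max TC TD))), by positivity,
    lt_of_lt_of_le hTF (le_max_left _ _), ?_⟩
  intro T hT k j hk hk1 hj
  have h1 : TF ≤ T := le_trans (le_max_left _ _) hT
  have hT2 := le_trans (le_max_right _ _) hT
  have h2 : TB ≤ T := le_trans (le_max_left _ _) hT2
  have hT3 := le_trans (le_max_right _ _) hT2
  have h3 : TS ≤ T := le_trans (le_max_left _ _) hT3
  have hT4 := le_trans (le_max_right _ _) hT3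
  have h4 : TC ≤ T := le_trans (le_max_left _ _) hT4
  have h5 : TD ≤ T := le_trans (le_max_right _ _) hT4
  have hT3' : 3 < T := lt_of_lt_of_le hTF h1
  have hL1 : 1 < Real.log T := by
    rw [Real.lt_log_iff_exp_lt (by linarith)]
    have := Real.exp_one_lt_d9
    linarith
  have hL0 : 0 < Real.log T := by linarith
  have hwj : 0 ≤ wj T j := by
    unfold wj
    split_ifs
    · unfold dl; positivity
    · norm_num
  have hRJ : 0 ≤ RJ T j := by
    unfold RJ
    apply Real.rpow_nonneg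
    unfold dl
    positivity
  have hw2 : 0 ≤ wj T j * RJ T j ^ (2 * rj T j) := by positivity
  have hLk : 1 ≤ Real.log T ^ (k ^ 2) := Real.one_le_rpow hL1.le (by positivity)
  obtain ⟨hb1, hb2, hb3, hb4⟩ := hbiu T h2
  obtain ⟨hd1, hd2⟩ := hdec T h5
  rcases Nat.eq_zero_or_pos j with rfl | hjpos
  · -- first block
    refine ⟨1, le_rfl, hL1.le, fun τ => ?_⟩
    refine le_trans (hfzn T h1 0 (rj T 0) (1 - k) _ hj (by linarith) (by linarith) ?_) ?_
    · simp; positivity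
    · apply ENNReal.ofReal_le_ofReal
      have hs0 := (hbls T h3 0 hj).2.1
      have hr0 := rs_nonneg (SS T 0)
      have hh1 : 1 ≤ hh 1 (1 - k) τ := one_le_hh _ _ _ zero_le_one (by linarith)
      simp only [Finset.range_zero, Finset.sum_empty, Real.exp_zero, mul_one]
      have e1 : Real.exp (2 * rs (SS T 0)) * (2 ^ rj T 0 * ((rj T 0).factorial : ℝ) *
          rs (SS T 0) ^ rj T 0) * (1 / dl T 0) ^ 2 ≤
          CD * wj T 0 * RJ T 0 ^ (2 * rj T 0) := by
        refine le_trans ?_ hd2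
        gcongr
      calc CF * (Real.exp (2 * rs (SS T 0)) * (2 ^ rj T 0 * ((rj T 0).factorial : ℝ) *
            rs (SS T 0) ^ rj T 0)) * (1 / dl T 0) ^ 2
          = CF * (Real.exp (2 * rs (SS T 0)) * (2 ^ rj T 0 * ((rj T 0).factorial : ℝ) *
            rs (SS T 0) ^ rj T 0) * (1 / dl T 0) ^ 2) := by ring
        _ ≤ CF * (CD * wj T 0 * RJ T 0 ^ (2 * rj T 0)) := by gcongr
        _ = CF * 1 * 1 * CD * 1 * wj T 0 * RJ T 0 ^ (2 * rj T 0) * 1 ^ 2 := by ring
        _ ≤ CF * (CE + 1) * Real.exp 4 * CD * Real.log T ^ (k ^ 2) * wj T 0 *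
            RJ T 0 ^ (2 * rj T 0) * hh 1 (1 - k) τ ^ 2 := by
          have : 1 ≤ Real.exp 4 := Real.one_le_exp (by norm_num)
          gcongr
          linarith
  · obtain ⟨i, rfl⟩ : ∃ i, j = i + 1 := ⟨j - 1, by omega⟩
    have hi : i ≤ JJ T := by omega
    obtain ⟨hy0, hy1, hy2, -, -⟩ := hb4 i hi
    set y := yy T i with hy
    have hy3 : 3 ≤ y := le_trans hy0 hy1
    have hY1 : 1 < Real.log y := by
      rw [Real.lt_log_iff_exp_lt (by linarith)]
      have := Real.exp_one_lt_d9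
      linarith
    have hYL : Real.log y ≤ Real.log T := Real.log_le_log (by linarith) hy2
    refine ⟨Real.log y, hY1.le, hYL, fun τ => ?_⟩
    have hzre : (((1 / Real.log T : ℝ) : ℂ) + τ * I).re = 1 / Real.log T := by simp
    have hzim : (((1 / Real.log T : ℝ) : ℂ) + τ * I).im = τ := by simp
    have hz0 : 0 ≤ (((1 / Real.log T : ℝ) : ℂ) + τ * I).re := by rw [hzre]; positivity
    refine le_trans (hfzn T h1 (i + 1) (rj T (i + 1)) (1 - k) _ hj (by linarith) (by linarith)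
      hz0) ?_
    apply ENNReal.ofReal_le_ofReal
    have he := hexp y (1 - k) (((1 / Real.log T : ℝ) : ℂ) + τ * I) hy3 (by linarith)
      (by linarith) hz0 (by
        rw [hzre]
        exact one_div_le_one_div_of_le (by linarith) hYL)
    rw [hzim] at he
    have hsum : ∑ i' ∈ Finset.range (i + 1), ∑ p ∈ SS T i',
        ‖((1 - k : ℝ) : ℂ) - (p : ℂ) ^ (-(((1 / Real.log T : ℝ) : ℂ) + τ * I))‖ ^ 2 / (p : ℝ) =
        ∑ p ∈ prs 1 y,
        ‖((1 - k : ℝ) : ℂ) - (p : ℂ) ^ (-(((1 / Real.log T : ℝ) : ℂ) + τ * I))‖ ^ 2 / (p : ℝ) := by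
      rw [← hb3 i, Finset.sum_biUnion]
      intro a _ b _ hab
      exact hb2 a b hab
    rw [hsum]
    have hbl := hbls T h3 (i + 1) hj
    have hrs2 := hbl.2.2.1 (by omega)
    have hrs0 := rs_nonneg (SS T (i + 1))
    have hdd := hd1 (i + 1) (by omega) hj
    have e0 : (1 - (1 - k)) ^ 2 = k ^ 2 := by ring
    rw [e0] at he
    have e1 : Real.exp (2 * rs (SS T (i + 1))) * (2 ^ rj T (i + 1) *
        ((rj T (i + 1)).factorial : ℝ) * rs (SS T (i + 1)) ^ rj T (i + 1)) *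
        (1 / dl T (i + 1)) ^ 2 ≤
        Real.exp 4 * (CD * wj T (i + 1) * RJ T (i + 1) ^ (2 * rj T (i + 1))) := by
      calc Real.exp (2 * rs (SS T (i + 1))) * (2 ^ rj T (i + 1) *
          ((rj T (i + 1)).factorial : ℝ) * rs (SS T (i + 1)) ^ rj T (i + 1)) *
          (1 / dl T (i + 1)) ^ 2
          ≤ Real.exp 4 * (2 ^ rj T (i + 1) *
          ((rj T (i + 1)).factorial : ℝ) * 2 ^ rj T (i + 1)) *
          (1 / dl T (i + 1)) ^ 2 := by
            gcongr
            linarith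
        _ = Real.exp 4 * (4 ^ rj T (i + 1) * ((rj T (i + 1)).factorial : ℝ) *
          (1 / dl T (i + 1)) ^ 2) := by
            have : (4 : ℝ) ^ rj T (i + 1) = 2 ^ rj T (i + 1) * 2 ^ rj T (i + 1) := by
              rw [← mul_pow]; norm_num
            rw [this]; ring
        _ ≤ _ := by gcongr
    have hYk : Real.log y ^ (k ^ 2) ≤ Real.log T ^ (k ^ 2) :=
      Real.rpow_le_rpow (by linarith) hYL (by positivity)
    have hh0 : 0 ≤ hh (Real.log y) (1 - k) τ :=
      le_trans zero_le_one (one_le_hh _ _ _ (by linarith) (by linarith))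
    set E := Real.exp (∑ p ∈ prs 1 y,
        ‖((1 - k : ℝ) : ℂ) - (p : ℂ) ^ (-(((1 / Real.log T : ℝ) : ℂ) + τ * I))‖ ^ 2 / (p : ℝ))
      with hE
    have hE0 : 0 ≤ E := (Real.exp_pos _).le
    calc CF * E * (Real.exp (2 * rs (SS T (i + 1))) * (2 ^ rj T (i + 1) *
          ((rj T (i + 1)).factorial : ℝ) * rs (SS T (i + 1)) ^ rj T (i + 1))) *
          (1 / dl T (i + 1)) ^ 2
        = CF * E * (Real.exp (2 * rs (SS T (i + 1))) * (2 ^ rj T (i + 1) *
          ((rj T (i + 1)).factorial : ℝ) * rs (SS T (i + 1)) ^ rj T (i + 1)) *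
          (1 / dl T (i + 1)) ^ 2) := by ring
      _ ≤ CF * ((CE + 1) * Real.log T ^ (k ^ 2) * hh (Real.log y) (1 - k) τ ^ 2) *
          (Real.exp 4 * (CD * wj T (i + 1) * RJ T (i + 1) ^ (2 * rj T (i + 1)))) := by
          have h6 : E ≤ (CE + 1) * Real.log T ^ (k ^ 2) * hh (Real.log y) (1 - k) τ ^ 2 := by
            refine le_trans he ?_
            have : CE ≤ CE + 1 := by linarith
            gcongr
          gcongr
      _ = _ := by ring

theorem nra (hexp : ExpStatement) (hfzn : FznStatement) (hkrn : KrnStatement)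
    (hnr0 : Nr0Statement) (hhnt : HntStatement) (hbiu : BiuStatement)
    (hbls : BlsStatement) (hscl : SclStatement) (hdec : DecStatement) : NraStatement := by
  intro th c1 c2 hth _
  obtain ⟨CA, TA, hCA, hTA, hfreq⟩ := freq hexp hfzn hbiu hbls hscl hdec
  obtain ⟨CK, TK, hCK, hTK, hkrn⟩ := hkrn th c1 c2 hth
  obtain ⟨CH, hCH, hhnt⟩ := hhnt
  obtain ⟨TC, hTC, hscl⟩ := hscl
  refine ⟨CA * (CK * CH) ^ 2, max TA (max TK TC), by positivity,
    lt_of_lt_of_le hTA (le_max_left _ _), ?_⟩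
  intro T hT k j hk hk1 hj
  have h1 : TA ≤ T := le_trans (le_max_left _ _) hT
  have hT2 := le_trans (le_max_right _ _) hT
  have h2 : TK ≤ T := le_trans (le_max_left _ _) hT2
  have h3 : TC ≤ T := le_trans (le_max_right _ _) hT2
  have hT3 : 3 < T := lt_of_lt_of_le hTA h1
  have hL1 : 1 < Real.log T := by
    rw [Real.lt_log_iff_exp_lt (by linarith)]
    have := Real.exp_one_lt_d9
    linarith
  have hL0 : 0 < Real.log T := by linarith
  have hL3 : 3 ≤ Real.log T := by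
    have h6 : (10 : ℝ) ^ 7 ≤ Real.log (Real.log T) := (hscl T h3).1
    have h7 := Real.log_le_sub_one_of_pos hL0
    linarith
  have hwj : 0 ≤ wj T j := by
    unfold wj
    split_ifs
    · unfold dl; positivity
    · norm_num
  have hRJ : 0 ≤ RJ T j := by
    unfold RJ
    apply Real.rpow_nonneg
    unfold dl
    positivity
  obtain ⟨Y, hY1, hYL, hN⟩ := hfreq T h1 k j hk hk1 hj
  obtain ⟨R, hRc, hRb, hRi⟩ := hkrn T h2
  obtain ⟨hi1, hi2⟩ := hhnt (Real.log T) Y k hL3 hY1 hYL hk hk1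
  have hhc : Continuous (hh Y (1 - k)) := hh_cont Y (1 - k) (by linarith)
  have hh1 : ∀ τ, 1 ≤ hh Y (1 - k) τ := fun τ => one_le_hh _ _ _ (by linarith) (by linarith)
  have hpt : ∀ τ, ‖R τ‖ * hh Y (1 - k) τ ≤
      CK * (hh Y (1 - k) τ / (Real.log T * ((1 / Real.log T) ^ 2 + τ ^ 2))) := by
    intro τ
    have h6 := hRb τ
    have h7 : 0 ≤ hh Y (1 - k) τ := le_trans zero_le_one (hh1 τ)
    calc ‖R τ‖ * hh Y (1 - k) τ ≤
        CK / (Real.log T * ((1 / Real.log T) ^ 2 + τ ^ 2)) * hh Y (1 - k) τ := by gcongr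
      _ = _ := by ring
  have hint : Integrable (fun τ : ℝ => ‖R τ‖ * hh Y (1 - k) τ) := by
    refine Integrable.mono' (hi1.const_mul CK) ?_ ?_
    · exact (hRc.norm.mul hhc).aestronglyMeasurable
    · refine Filter.Eventually.of_forall (fun τ => ?_)
      have h7 : 0 ≤ hh Y (1 - k) τ := le_trans zero_le_one (hh1 τ)
      rw [Real.norm_of_nonneg (by positivity)]
      exact hpt τ
  have hintle : ∫ τ : ℝ, ‖R τ‖ * hh Y (1 - k) τ ≤ CK * (CH / k) := by
    calc ∫ τ : ℝ, ‖R τ‖ * hh Y (1 - k) τ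
        ≤ ∫ τ : ℝ, CK * (hh Y (1 - k) τ / (Real.log T * ((1 / Real.log T) ^ 2 + τ ^ 2))) :=
          integral_mono hint (hi1.const_mul CK) hpt
      _ = CK * ∫ τ : ℝ, hh Y (1 - k) τ / (Real.log T * ((1 / Real.log T) ^ 2 + τ ^ 2)) :=
          integral_const_mul _ _
      _ ≤ CK * (CH / k) := by gcongr
  have hB : 0 ≤ CA * Real.log T ^ (k ^ 2) * wj T j * RJ T j ^ (2 * rj T j) := by positivity
  have hfin := hnr0 R (hh Y (1 - k)) (1 / Real.log T)
    (CA * Real.log T ^ (k ^ 2) * wj T j * RJ T j ^ (2 * rj T j)) (CK * (CH / k)) T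
    (bet th c1 c2 T) (gA (1 - k) T j (rj T j)) (by linarith) hB hRc hhc hh1 hint hintle hRi hN
  refine le_trans hfin (le_of_eq ?_)
  field_simp

end Pool.Agent.Lib.MP_6bc78b_nt.MS.QZ.H79
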